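import Pool.Agent.Lib.MP_b1a3a4_al.MVS.FR.Iface
import Pool.Agent.Lib.MP_b1a3a4_al.MVS.H27.PN

/-!
# Project MVS, part III: module KSUB (11.10)
-/

set_option linter.all false

namespace Pool.Agent.Lib.MP_b1a3a4_al.MVS.FR.H82

open Finsupp

variable {I : Type} {L : I → Type} [∀ i, Group (L i)]

/-- the projection `S → p_i(S)` -/
def prHom (S : Subgroup (∀ i, L i)) (i : I) : S →* pr S i where
  toFun s := ⟨(s : ∀ i, L i) i, ⟨s, s.2, rfl⟩⟩
  map_one' := rfl
  map_mul' _ _ := rfl

lemma prHom_surj (S : Subgroup (∀ i, L i)) (i : I) : Function.Surjective (prHom S i) := by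
  rintro ⟨x, s, hs, rfl⟩
  exact ⟨⟨s, hs⟩, rfl⟩

/-- `K_i(S)` is the kernel of the projection -/
def kerEquiv (S : Subgroup (∀ i, L i)) (i : I) :
    (prHom S i).ker ≃* (S ⊓ kerJ L {i} : Subgroup (∀ i, L i)) where
  toFun s := ⟨s.1.1, s.1.2, by
    intro j hj
    rw [Finset.mem_singleton] at hj
    subst hj
    have := s.2
    rw [MonoidHom.mem_ker] at this
    exact congrArg Subtype.val this⟩
  invFun s := ⟨⟨s.1, s.2.1⟩, by
    rw [MonoidHom.mem_ker]
    exact Subtype.ext (s.2.2 i (Finset.mem_singleton_self i))⟩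
  left_inv _ := rfl
  right_inv _ := rfl
  map_mul' _ _ := rfl

lemma conj_mulSingle [DecidableEq I] (i : I) (s : ∀ i, L i) (x : L i) :
    s * Pi.mulSingle i x * s⁻¹ = (Pi.mulSingle i (s i * x * (s i)⁻¹) : ∀ i, L i) := by
  funext j
  by_cases h : j = i
  · subst h
    simp
  · simp [Pi.mulSingle_eq_of_ne h]

lemma fg_pr {S : Subgroup (∀ i, L i)} (h : Group.FG S) (i : I) : Group.FG (pr S i) :=
  Group.fg_of_surjective (prHom_surj S i)

theorem ksub (h1 : HallfStatement) (h2 : KfreeStatement) (h3 : FpisoStatement)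
    (h4 : FpfgStatement) : KsubStatement := by
  intro k _ _ n I _ _ L _ _ S i hne hFP
  have hS : Group.FG S := h4 k S (H27.isFP_one _ n _ hFP)
  have hP : Group.FG (pr S i) := fg_pr hS i
  set N : Subgroup (pr S i) := (nr S i).subgroupOf (pr S i) with hN
  have hmem : ∀ x : pr S i, x ∈ N ↔ (Pi.mulSingle i (x : L i) : ∀ i, L i) ∈ S := by
    intro x
    rw [hN, Subgroup.mem_subgroupOf]
    rfl
  have hNn : N.Normal := by
    constructor
    rintro x hx ⟨g, s, hs, rfl⟩
    rw [hmem] at hx ⊢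
    have := S.mul_mem (S.mul_mem hs hx) (S.inv_mem hs)
    rw [conj_mulSingle] at this
    exact this
  have hN1 : N ≠ ⊥ := by
    obtain ⟨⟨x, hx⟩, hx0⟩ := (nr S i).ne_bot_iff_exists_ne_one.1 hne
    have hx1 : x ≠ 1 := fun h => hx0 (Subtype.ext h)
    intro hbot
    have hxP : x ∈ pr S i := ⟨Pi.mulSingle i x, hx, by simp⟩
    have h5 : (⟨x, hxP⟩ : pr S i) ∈ N := hx
    rw [hbot, Subgroup.mem_bot] at h5
    exact hx1 (congrArg Subtype.val h5)
  have hD : Nonempty (HallData N) := h1 (pr S i) hP N hN1 hNn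
  let e : N →* S :=
    { toFun := fun x => ⟨Pi.mulSingle i ((x : pr S i) : L i), (hmem _).1 x.2⟩
      map_one' := by
        apply Subtype.ext
        simp
      map_mul' := by
        intro x y
        apply Subtype.ext
        simp [Pi.mulSingle_mul] }
  have h6 := h2 k S (pr S i) (prHom S i) (prHom_surj S i) N hD hNn e
    (by
      intro x
      apply Subtype.ext
      show (Pi.mulSingle i ((x : pr S i) : L i) : ∀ i, L i) i = _
      simp)
    (by
      intro x s h
      apply Subtype.ext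
      show (Pi.mulSingle i _ : ∀ i, L i) = (s : ∀ i, L i) * Pi.mulSingle i _ * (s : ∀ i, L i)⁻¹
      rw [conj_mulSingle]
      rfl) n hFP
  exact h3 k _ _ n (kerEquiv S i) h6

end Pool.Agent.Lib.MP_b1a3a4_al.MVS.FR.H82
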