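import Pool.Agent.Lib.MP_b1a3a4_al.MVS.FR.H82.Ksub

/-!
# Project MVS, part III: module VSFREE (11.10)
-/

set_option linter.all false

namespace Pool.Agent.Lib.MP_b1a3a4_al.MVS.FR.H82

open Finsupp

variable {I : Type} {L : I → Type} [∀ i, Group (L i)]

/-- if every element of `X` is a product of an element of `K ≤ X` and one of `M`, the index of `M`
in `X` is finite as soon as it is finite in `K` -/
lemma relIndex_of_prod {G : Type} [Group G] {M K X : Subgroup G} (hK : K ≤ X)
    (h : ∀ x ∈ X, ∃ a ∈ K, a⁻¹ * x ∈ M) (hM : M.relIndex K ≠ 0) : M.relIndex X ≠ 0 := by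
  have hfin : Finite (K ⧸ M.subgroupOf K) := by
    have : (M.subgroupOf K).FiniteIndex := ⟨hM⟩
    infer_instance
  let φ : K ⧸ M.subgroupOf K → X ⧸ M.subgroupOf X :=
    Quotient.map' (fun a : K => (⟨a.1, hK a.2⟩ : X)) (by
      intro a b hab
      rw [QuotientGroup.leftRel_apply] at hab ⊢
      exact hab)
  have hsurj : Function.Surjective φ := by
    intro q
    induction q using Quotient.inductionOn' with
    | h x =>
      obtain ⟨a, ha, hax⟩ := h x.1 x.2
      refine ⟨Quotient.mk'' ⟨a, ha⟩, ?_⟩
      apply Quotient.sound'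
      rw [QuotientGroup.leftRel_apply]
      exact hax
  have := Finite.of_surjective φ hsurj
  exact Subgroup.index_ne_zero_of_finite

lemma kerJ_normal (J : Finset I) : (kerJ L J).Normal := by
  constructor
  intro x hx g j hj
  simp [hx j hj]

lemma mem_sup_kerJ {S : Subgroup (∀ i, L i)} {J : Finset I} {x : ∀ i, L i} :
    x ∈ S ⊔ kerJ L J ↔ ∃ s ∈ S, ∀ j ∈ J, s j = x j := by
  have := kerJ_normal (L := L) J
  constructor
  · intro hx
    obtain ⟨s, hs, z, hz, rfl⟩ := Subgroup.mem_sup_of_normal_right.1 hx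
    exact ⟨s, hs, fun j hj => by simp [hz j hj]⟩
  · rintro ⟨s, hs, h⟩
    refine Subgroup.mem_sup_of_normal_right.2 ⟨s, hs, s⁻¹ * x, ?_, by simp⟩
    intro j hj
    simp [h j hj]

theorem vsfree (h1 : KsubStatement) (h2 : FgnormStatement) (h3 : FpfgStatement) :
    VsfreeStatement := by
  intro k _ _ n hn
  induction n, hn using Nat.le_induction with
  | base =>
    intro I _ _ L _ _ U S hsupp hne hFP J hJ hJc
    obtain ⟨j, rfl⟩ := Finset.card_eq_one.1 hJc
    rw [Subgroup.relIndex_eq_one.2]
    · exact one_ne_zero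
    · intro x hx
      obtain ⟨s, hs, hsx⟩ := hx.1 j
      refine mem_sup_kerJ.2 ⟨s, hs, ?_⟩
      intro i hi
      rw [Finset.mem_singleton] at hi
      subst hi
      exact hsx
  | succ n hn ih =>
    intro I _ _ L _ _ U S hsupp hne hFP J hJ hJc
    have hS : Group.FG S := h3 k S (H27.isFP_one _ n _ hFP)
    obtain ⟨i, hi⟩ : J.Nonempty := Finset.card_pos.1 (by omega)
    have hiU : i ∈ U := hJ hi
    set K : Subgroup (∀ i, L i) := S ⊓ kerJ L {i} with hKdef
    have hKFP : FPn k K n := h1 k n I L S i (hne i hiU) hFP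
    have hKfg : Group.FG K := by
      obtain ⟨m, rfl⟩ : ∃ m, n = m + 1 := ⟨n - 1, by omega⟩
      exact h3 k K (H27.isFP_one _ m _ hKFP)
    have hKS : K ≤ S := inf_le_left
    have hKi : ∀ s ∈ K, s i = 1 := fun s hs => hs.2 i (Finset.mem_singleton_self i)
    have hKmem : ∀ s ∈ S, s i = 1 → s ∈ K := by
      intro s hs h1
      refine Subgroup.mem_inf.2 ⟨hs, ?_⟩
      intro a ha
      rw [Finset.mem_singleton] at ha
      subst ha
      exact h1
    have hnrK : ∀ j, j ≠ i → nr S j ≤ nr K j := by
      intro j hj x hx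
      refine hKmem _ hx ?_
      rw [MonoidHom.mulSingle_apply, Pi.mulSingle_eq_of_ne (Ne.symm hj)]
    -- the induction hypothesis for `K`
    have hIH := ih I L (U.erase i) K (by
        intro s hs j hj
        by_cases h : j = i
        · subst h
          exact hKi s hs
        · exact hsupp s (hKS hs) j (fun hjU => hj (Finset.mem_erase.2 ⟨h, hjU⟩)))
      (by
        intro j hj hbot
        have hj' := Finset.mem_erase.1 hj
        apply hne j hj'.2
        rw [eq_bot_iff]
        exact le_trans (hnrK j hj'.1) hbot.le)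
      hKFP (J.erase i) (by
        intro j hj
        have hj' := Finset.mem_erase.1 hj
        exact Finset.mem_erase.2 ⟨hj'.1, hJ hj'.2⟩)
      (by rw [Finset.card_erase_of_mem hi]; omega)
    -- the projections of `K` have finite index
    have hpr : ∀ j ∈ U.erase i, (pr K j).relIndex (pr S j) ≠ 0 := by
      intro j hj
      have hj' := Finset.mem_erase.1 hj
      have hfg : Group.FG (pr S j) := fg_pr hS j
      have hle : pr K j ≤ pr S j := Subgroup.map_mono hKS
      have hfgK : Group.FG (pr K j) := fg_pr hKfg j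
      have hN : ((pr K j).subgroupOf (pr S j)).Normal := by
        constructor
        rintro ⟨x, hx⟩ ⟨κ, hκ, hκx⟩ ⟨g, s, hs, rfl⟩
        refine ⟨s * κ * s⁻¹, hKmem _ (mul_mem (mul_mem hs (hKS hκ)) (inv_mem hs)) ?_, ?_⟩
        · simp [hKi κ hκ]
        · have hκx' : κ j = x := hκx
          simp [hκx']
      have hne1 : (pr K j).subgroupOf (pr S j) ≠ ⊥ := by
        intro hbot
        obtain ⟨⟨x, hx⟩, hx0⟩ := (nr S j).ne_bot_iff_exists_ne_one.1 (hne j hj'.2)
        have hxK : x ∈ pr K j := ⟨Pi.mulSingle j x, hnrK j hj'.1 hx, by simp⟩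
        have h5 : (⟨x, hle hxK⟩ : pr S j) ∈ (pr K j).subgroupOf (pr S j) := hxK
        rw [hbot, Subgroup.mem_bot] at h5
        have h6 : x = 1 := congrArg Subtype.val h5
        exact hx0 (Subtype.ext h6)
      have hfgN : ((pr K j).subgroupOf (pr S j)).FG := by
        rw [← Group.fg_iff_subgroup_fg]
        exact Group.fg_of_surjective (f := (Subgroup.subgroupOfEquivOfLe hle).symm.toMonoidHom)
          (Subgroup.subgroupOfEquivOfLe hle).symm.surjective
      have := h2 (pr S j) hfg _ hne1 hN hfgN
      exact this.index_ne_zero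
    -- `Π_{U'}(K)` has finite index in `Π_{U'}(S)`
    have hPi : (piS (U.erase i) K).relIndex (piS (U.erase i) S) ≠ 0 := by
      have h6 : ∀ j, (if j ∈ U.erase i then (pr K j).comap (Pi.evalMonoidHom L j) else
          (⊤ : Subgroup (∀ i, L i))).relIndex (piS (U.erase i) S) ≠ 0 := by
        intro j
        split_ifs with hj
        · rw [Subgroup.relIndex_comap]
          refine mt (Subgroup.relIndex_eq_zero_of_le_right ?_) (hpr j hj)
          rintro _ ⟨x, hx, rfl⟩
          exact hx.1 j
        · rw [Subgroup.relIndex_top_left]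
          exact one_ne_zero
      have h7 := Subgroup.relIndex_iInf_ne_zero h6
      refine mt ?_ h7
      intro h8
      have h9 : ((⨅ j, (if j ∈ U.erase i then (pr K j).comap (Pi.evalMonoidHom L j) else
          (⊤ : Subgroup (∀ i, L i)))) ⊓ piS (U.erase i) S).relIndex (piS (U.erase i) S) = 0 := by
        refine Subgroup.relIndex_eq_zero_of_le_left ?_ h8
        rintro x ⟨hx1, hx2⟩
        refine ⟨?_, hx2.2⟩
        intro j
        by_cases hj : j ∈ U.erase i
        · have h10 := (Subgroup.mem_iInf.1 hx1) j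
          rw [if_pos hj] at h10
          exact h10
        · rw [hx2.2 j hj]
          exact one_mem _
      rwa [Subgroup.inf_relIndex_right] at h9
    -- the group `S ⊔ ker p_J`
    have hM : (S ⊔ kerJ L J).relIndex (piS (U.erase i) S) ≠ 0 := by
      have h6 : (K ⊔ kerJ L (J.erase i)).relIndex (piS (U.erase i) S) ≠ 0 :=
        Subgroup.relIndex_ne_zero_trans hIH hPi
      refine mt ?_ h6
      intro h7
      have h8 : ((K ⊔ kerJ L (J.erase i)) ⊓ piS (U.erase i) S).relIndex (piS (U.erase i) S) = 0 := by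
        refine Subgroup.relIndex_eq_zero_of_le_left ?_ h7
        rintro x ⟨hx1, hx2⟩
        obtain ⟨κ, hκ, hκx⟩ := mem_sup_kerJ.1 hx1
        refine mem_sup_kerJ.2 ⟨κ, hKS hκ, ?_⟩
        intro j hj
        by_cases hji : j = i
        · subst hji
          rw [hKi κ hκ, hx2.2 j (Finset.notMem_erase j U)]
        · exact hκx j (Finset.mem_erase.2 ⟨hji, hj⟩)
      rwa [Subgroup.inf_relIndex_right] at h8
    refine relIndex_of_prod (K := piS (U.erase i) S) ?_ ?_ hM
    · intro x hx
      exact ⟨hx.1, fun j hj => hx.2 j (fun h => hj (Finset.mem_of_mem_erase h))⟩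
    · intro x hx
      obtain ⟨s, hs, hsx⟩ := hx.1 i
      have hsx' : s i = x i := hsx
      refine ⟨x * s⁻¹, ⟨?_, ?_⟩, ?_⟩
      · intro j
        exact mul_mem (hx.1 j) (inv_mem ⟨s, hs, rfl⟩)
      · intro j hj
        by_cases hji : j = i
        · subst hji
          simp [hsx']
        · have hjU : j ∉ U := fun h => hj (Finset.mem_erase.2 ⟨hji, h⟩)
          simp [hx.2 j hjU, hsupp s hs j hjU]
      · have : (x * s⁻¹)⁻¹ * x = s := by group
        rw [this]
        exact Subgroup.mem_sup_left hs

end Pool.Agent.Lib.MP_b1a3a4_al.MVS.FR.H82
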